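import Pool.Agent.Lib.MP_a43909_al.Defs

/-!
# A finitely based union of an increasing sequence of identity systems stabilises
-/

namespace Pool.Agent.Lib.MP_a43909_al

universe u

variable {F : Type u} [Field F]

/-- `f` is a consequence of some `S N`. -/
def conseq (S : ℕ → Set (NAPoly F)) (f : NAPoly F) : Prop :=
  ∃ N, ∀ (A : Type u) [NonUnitalNonAssocRing A] [Module F A] [IsScalarTower F A A]
    [SMulCommClass F A A], InVariety F A (S N) → Satisfies F A f

lemma InVariety.mono {A : Type u} [NonUnitalNonAssocRing A] [Module F A] [IsScalarTower F A A]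
    [SMulCommClass F A A] {S T : Set (NAPoly F)} (h : S ⊆ T) (hT : InVariety F A T) :
    InVariety F A S := fun f hf => hT f (h hf)

/-- the ideal of consequences -/
def cIdeal (S : ℕ → Set (NAPoly F)) (hS : Monotone S) : Submodule F (NAPoly F) where
  carrier := {f | conseq S f}
  add_mem' := by
    rintro f g ⟨N, hN⟩ ⟨M, hM⟩
    refine ⟨max N M, ?_⟩
    intro A _ _ _ _ hA x
    rw [map_add, hN A (hA.mono (hS (le_max_left _ _))) x,
      hM A (hA.mono (hS (le_max_right _ _))) x, add_zero]
  zero_mem' := ⟨0, by intro A _ _ _ _ _ x; exact map_zero _⟩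
  smul_mem' := by
    rintro c f ⟨N, hN⟩
    refine ⟨N, ?_⟩
    intro A _ _ _ _ hA x
    rw [map_smul, hN A hA x, smul_zero]

lemma mem_cIdeal {S : ℕ → Set (NAPoly F)} {hS : Monotone S} {f : NAPoly F} :
    f ∈ cIdeal S hS ↔ conseq S f := Iff.rfl

lemma cIdeal_mul_left {S : ℕ → Set (NAPoly F)} {hS : Monotone S} (a : NAPoly F) {f : NAPoly F}
    (hf : f ∈ cIdeal S hS) : a * f ∈ cIdeal S hS := by
  obtain ⟨N, hN⟩ := hf
  refine ⟨N, ?_⟩
  intro A _ _ _ _ hA x
  rw [map_mul, hN A hA x, mul_zero]

lemma cIdeal_mul_right {S : ℕ → Set (NAPoly F)} {hS : Monotone S} (a : NAPoly F) {f : NAPoly F}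
    (hf : f ∈ cIdeal S hS) : f * a ∈ cIdeal S hS := by
  obtain ⟨N, hN⟩ := hf
  refine ⟨N, ?_⟩
  intro A _ _ _ _ hA x
  rw [map_mul, hN A hA x, zero_mul]

/-- the quotient of the free algebra by the ideal of consequences -/
def QAlg (S : ℕ → Set (NAPoly F)) (hS : Monotone S) : Type u := NAPoly F ⧸ cIdeal S hS

variable {S : ℕ → Set (NAPoly F)} {hS : Monotone S}

noncomputable instance : AddCommGroup (QAlg S hS) :=
  inferInstanceAs (AddCommGroup (NAPoly F ⧸ cIdeal S hS))

noncomputable instance : Module F (QAlg S hS) :=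
  inferInstanceAs (Module F (NAPoly F ⧸ cIdeal S hS))

/-- the projection -/
noncomputable def qmk : NAPoly F →ₗ[F] QAlg S hS := (cIdeal S hS).mkQ

lemma qmk_surj : Function.Surjective (qmk : NAPoly F →ₗ[F] QAlg S hS) :=
  Submodule.mkQ_surjective _

lemma qmk_eq_zero {f : NAPoly F} : (qmk f : QAlg S hS) = 0 ↔ f ∈ cIdeal S hS :=
  Submodule.Quotient.mk_eq_zero _

/-- bilinear multiplication, first step -/
noncomputable def qmul1 : QAlg S hS →ₗ[F] NAPoly F →ₗ[F] QAlg S hS :=
  (cIdeal S hS).liftQ ((LinearMap.mul F (NAPoly F)).compr₂ qmk) (by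
    intro f hf
    rw [LinearMap.mem_ker]
    apply LinearMap.ext
    intro a
    exact qmk_eq_zero.2 (cIdeal_mul_right _ hf))

lemma qmul1_mk (f g : NAPoly F) : qmul1 (qmk f : QAlg S hS) g = qmk (f * g) := rfl

/-- bilinear multiplication -/
noncomputable def qmul : QAlg S hS →ₗ[F] QAlg S hS →ₗ[F] QAlg S hS :=
  ((cIdeal S hS).liftQ (qmul1 (S := S) (hS := hS)).flip (by
    intro g hg
    rw [LinearMap.mem_ker]
    apply LinearMap.ext
    intro x
    obtain ⟨f, rfl⟩ := qmk_surj x
    rw [LinearMap.flip_apply, qmul1_mk, LinearMap.zero_apply]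
    exact qmk_eq_zero.2 (cIdeal_mul_left _ hg))).flip

lemma qmul_mk (f g : NAPoly F) : qmul (qmk f : QAlg S hS) (qmk g) = qmk (f * g) := rfl

noncomputable instance : NonUnitalNonAssocRing (QAlg S hS) where
  mul x y := qmul x y
  left_distrib x y z := (qmul x).map_add y z
  right_distrib x y z := by
    change qmul (x + y) z = qmul x z + qmul y z
    rw [map_add, LinearMap.add_apply]
  zero_mul x := by
    change qmul 0 x = 0
    rw [map_zero, LinearMap.zero_apply]
  mul_zero x := (qmul x).map_zero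

lemma q_mul_def (x y : QAlg S hS) : x * y = qmul x y := rfl

instance : IsScalarTower F (QAlg S hS) (QAlg S hS) where
  smul_assoc c x y := by
    change qmul (c • x) y = c • qmul x y
    rw [map_smul, LinearMap.smul_apply]

instance : SMulCommClass F (QAlg S hS) (QAlg S hS) where
  smul_comm c x y := by
    change c • qmul x y = qmul x (c • y)
    rw [map_smul]

/-- the projection as a homomorphism of algebras -/
noncomputable def qhom : NAPoly F →ₙₐ[F] QAlg S hS where
  toFun f := qmk f
  map_smul' c f := by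
    rw [map_smul]; rfl
  map_zero' := map_zero qmk
  map_add' f g := map_add qmk f g
  map_mul' _ _ := rfl

lemma qhom_apply (f : NAPoly F) : (qhom f : QAlg S hS) = qmk f := rfl

lemma conseq_subst {f : NAPoly F} (hf : conseq S f) (φ : NAPoly F →ₙₐ[F] NAPoly F) :
    conseq S (φ f) := by
  obtain ⟨N, hN⟩ := hf
  refine ⟨N, ?_⟩
  intro A _ _ _ _ hA x
  have h : (FreeNonUnitalNonAssocAlgebra.lift F x).comp φ
      = FreeNonUnitalNonAssocAlgebra.lift F
        (fun i => FreeNonUnitalNonAssocAlgebra.lift F x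
          (φ (FreeNonUnitalNonAssocAlgebra.of F i))) := by
    apply FreeNonUnitalNonAssocAlgebra.hom_ext
    intro i
    simp
  have h2 := congrArg (fun ψ => ψ f) h
  simp only [NonUnitalAlgHom.comp_apply] at h2
  rw [h2]
  exact hN A hA _

lemma qAlg_satisfies {f : NAPoly F} (hf : conseq S f) : Satisfies F (QAlg S hS) f := by
  intro x
  choose y hy using fun i => qmk_surj (x i)
  have h : FreeNonUnitalNonAssocAlgebra.lift F x
      = (qhom : NAPoly F →ₙₐ[F] QAlg S hS).comp (FreeNonUnitalNonAssocAlgebra.lift F y) := by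
    symm
    rw [← FreeNonUnitalNonAssocAlgebra.lift_unique]
    funext i
    simp [qhom_apply, hy]
  rw [h, NonUnitalAlgHom.comp_apply, qhom_apply, qmk_eq_zero]
  exact conseq_subst hf _

/-- If the union of an increasing sequence of identity systems is finitely based, the sequence
stabilises. -/
theorem compactness (S : ℕ → Set (NAPoly F)) (hS : Monotone S)
    (h : FinitelyBased F (⋃ N, S N)) :
    ∃ N, ∀ (A : Type u) [NonUnitalNonAssocRing A] [Module F A] [IsScalarTower F A A]
      [SMulCommClass F A A], InVariety F A (S N) → InVariety F A (⋃ N, S N) := by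
  obtain ⟨T, hT, hTS⟩ := h
  have hQ : InVariety F (QAlg S hS) (⋃ N, S N) := by
    intro f hf
    obtain ⟨N, hN⟩ := Set.mem_iUnion.1 hf
    exact qAlg_satisfies ⟨N, fun A _ _ _ _ hA => hA f hN⟩
  have hQT := (hTS (QAlg S hS)).2 hQ
  have hc : ∀ f ∈ T, conseq S f := by
    intro f hf
    have h1 := hQT f hf (fun i => qmk (FreeNonUnitalNonAssocAlgebra.of F i))
    have h2 : FreeNonUnitalNonAssocAlgebra.lift F
        (fun i => (qmk (FreeNonUnitalNonAssocAlgebra.of F i) : QAlg S hS)) = qhom := by
      symm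
      rw [← FreeNonUnitalNonAssocAlgebra.lift_unique]
      rfl
    rw [h2, qhom_apply, qmk_eq_zero] at h1
    exact h1
  have hb : ∃ N, ∀ f ∈ T, ∀ (A : Type u) [NonUnitalNonAssocRing A] [Module F A]
      [IsScalarTower F A A] [SMulCommClass F A A], InVariety F A (S N) → Satisfies F A f := by
    clear hTS hQT hQ
    induction T, hT using Set.Finite.induction_on with
    | empty => exact ⟨0, fun f hf => absurd hf (Set.notMem_empty f)⟩
    | @insert a s hn _ ih =>
        obtain ⟨N, hN⟩ := ih (fun f hf => hc f (Set.mem_insert_of_mem _ hf))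
        obtain ⟨M, hM⟩ := hc a (Set.mem_insert _ _)
        refine ⟨max N M, ?_⟩
        intro f hf A _ _ _ _ hA
        rcases Set.mem_insert_iff.1 hf with rfl | hf
        · exact hM A (hA.mono (hS (le_max_right _ _)))
        · exact hN f hf A (hA.mono (hS (le_max_left _ _)))
  obtain ⟨N, hN⟩ := hb
  refine ⟨N, ?_⟩
  intro A _ _ _ _ hA
  exact (hTS A).1 (fun f hf => hN f hf A hA)

end Pool.Agent.Lib.MP_a43909_al
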