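import Mathlib

/-!
# Varieties of nonassociative algebras: definitions
-/

namespace Pool.Agent.Lib.MP_a43909_al

universe u v

/-- Nonassociative polynomials over `F` in countably many variables: the free nonassociative
algebra on `ℕ`. -/
abbrev NAPoly (F : Type u) [Field F] := FreeNonUnitalNonAssocAlgebra F ℕ

/-- The `F`-algebra `A` satisfies the identity `f = 0`: every substitution of elements of `A` for
the variables sends `f` to `0`. -/
def Satisfies (F : Type u) [Field F] (A : Type v) [NonUnitalNonAssocRing A] [Module F A]
    [IsScalarTower F A A] [SMulCommClass F A A] (f : NAPoly F) : Prop :=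
  ∀ x : ℕ → A, FreeNonUnitalNonAssocAlgebra.lift F x f = 0

/-- `A` lies in the variety defined by the set `S` of identities. -/
def InVariety (F : Type u) [Field F] (A : Type v) [NonUnitalNonAssocRing A] [Module F A]
    [IsScalarTower F A A] [SMulCommClass F A A] (S : Set (NAPoly F)) : Prop :=
  ∀ f ∈ S, Satisfies F A f

/-- The variety defined by the set `S` of identities is finitely based: it is also defined by a
finite set `T` of identities. -/
def FinitelyBased (F : Type u) [Field F] (S : Set (NAPoly F)) : Prop :=
  ∃ T : Set (NAPoly F), T.Finite ∧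
    ∀ (A : Type u) [NonUnitalNonAssocRing A] [Module F A] [IsScalarTower F A A]
      [SMulCommClass F A A], InVariety F A T ↔ InVariety F A S

/-- `A` is alternative: `(x,x,y) = 0` and `(y,x,x) = 0` for all `x, y`. -/
def AlternativeAlg (A : Type v) [NonUnitalNonAssocRing A] : Prop :=
  ∀ x y : A, (x * x) * y = x * (x * y) ∧ (y * x) * x = y * (x * x)

/-- `A` is a Jordan algebra: `xy = yx` and `(x²y)x = x²(yx)` for all `x, y`. -/
def JordanAlg (A : Type v) [NonUnitalNonAssocRing A] : Prop :=
  (∀ x y : A, x * y = y * x) ∧ ∀ x y : A, ((x * x) * y) * x = (x * x) * (y * x)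

/-- The derived series `A^(0) = A`, `A^(k+1) = A^(k) A^(k)` (the span of the products). -/
def derivedPower (F : Type u) [Field F] (A : Type v) [NonUnitalNonAssocRing A] [Module F A] :
    ℕ → Submodule F A
  | 0 => ⊤
  | k + 1 => Submodule.span F {z | ∃ x ∈ derivedPower F A k, ∃ y ∈ derivedPower F A k, z = x * y}

end Pool.Agent.Lib.MP_a43909_al
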