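import Mathlib

/-!
# Grassmann algebras in characteristic 3

Even and odd parts, supercommutativity, cubes of even elements.
-/

namespace Pool.Agent.Lib.MP_a43909_al

variable {F : Type*} [Field F] [CharP F 3] {V : Type*} [AddCommGroup V] [Module F V]

/-- the grade involution of the exterior algebra -/
noncomputable def hat : ExteriorAlgebra F V →ₐ[F] ExteriorAlgebra F V :=
  CliffordAlgebra.involute

omit [CharP F 3] in
@[simp] lemma hat_hat (x : ExteriorAlgebra F V) : hat (hat x) = x :=
  CliffordAlgebra.involute_involute x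

omit [CharP F 3] in
@[simp] lemma hat_iota (v : V) : hat (ExteriorAlgebra.ι F v) = -ExteriorAlgebra.ι F v :=
  CliffordAlgebra.involute_ι v

/-- the even part -/
noncomputable def ev : ExteriorAlgebra F V →ₗ[F] ExteriorAlgebra F V :=
  -(LinearMap.id + hat.toLinearMap)

/-- the odd part -/
noncomputable def od : ExteriorAlgebra F V →ₗ[F] ExteriorAlgebra F V :=
  hat.toLinearMap - LinearMap.id

omit [CharP F 3] in
lemma ev_apply (x : ExteriorAlgebra F V) : ev x = -(x + hat x) := rfl

omit [CharP F 3] in
lemma od_apply (x : ExteriorAlgebra F V) : od x = hat x - x := rfl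

lemma three_eq_zero' : (3 : ExteriorAlgebra F V) = 0 := by
  have h : (3 : F) = 0 := by
    have := CharP.cast_eq_zero F 3
    exact_mod_cast this
  have h2 := congrArg (algebraMap F (ExteriorAlgebra F V)) h
  rw [map_ofNat, map_zero] at h2
  exact h2

lemma add3 (x : ExteriorAlgebra F V) : x + x + x = 0 := by
  have : x + x + x = 3 * x := by noncomm_ring
  rw [this, three_eq_zero', zero_mul]

lemma two_eq (x : ExteriorAlgebra F V) : x + x = -x := by
  have := add3 x
  exact eq_neg_of_add_eq_zero_left this

lemma eq_zero_of_add_self {x : ExteriorAlgebra F V} (h : x + x = 0) : x = 0 := by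
  rw [two_eq, neg_eq_zero] at h; exact h

lemma ev_add_od (x : ExteriorAlgebra F V) : ev x + od x = x := by
  rw [ev_apply, od_apply]
  have := add3 x
  have h : -(x + hat x) + (hat x - x) = x - (x + x + x) := by abel
  rw [h, this, sub_zero]

lemma hat_eq (x : ExteriorAlgebra F V) : hat x = ev x - od x := by
  rw [ev_apply, od_apply]
  have := add3 (hat x)
  have h : -(x + hat x) - (hat x - x) = hat x - (hat x + hat x + hat x) := by abel
  rw [h, this, sub_zero]

omit [CharP F 3] in
@[simp] lemma hat_ev (x : ExteriorAlgebra F V) : hat (ev x) = ev x := by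
  rw [ev_apply, map_neg, map_add, hat_hat, add_comm]

omit [CharP F 3] in
@[simp] lemma hat_od (x : ExteriorAlgebra F V) : hat (od x) = -od x := by
  rw [od_apply, map_sub, hat_hat]; abel

lemma ev_ev (x : ExteriorAlgebra F V) : ev (ev x) = ev x := by
  rw [ev_apply (ev x), hat_ev, two_eq, neg_neg]

omit [CharP F 3] in
lemma od_ev (x : ExteriorAlgebra F V) : od (ev x) = 0 := by
  rw [od_apply (ev x), hat_ev, sub_self]

omit [CharP F 3] in
lemma ev_od (x : ExteriorAlgebra F V) : ev (od x) = 0 := by
  rw [ev_apply (od x), hat_od]; simp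

lemma od_od (x : ExteriorAlgebra F V) : od (od x) = od x := by
  rw [od_apply (od x), hat_od]
  have : -od x - od x = -(od x + od x) := by abel
  rw [this, two_eq, neg_neg]

omit [CharP F 3] in
lemma iota_mul (v : V) (x : ExteriorAlgebra F V) :
    ExteriorAlgebra.ι F v * x = hat x * ExteriorAlgebra.ι F v := by
  induction x using ExteriorAlgebra.induction with
  | algebraMap r =>
      rw [AlgHom.commutes]; exact (Algebra.commutes r _).symm
  | ι w =>
      rw [hat_iota]
      have := ExteriorAlgebra.ι_add_mul_swap (R := F) v w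
      rw [neg_mul]
      exact eq_neg_of_add_eq_zero_left this
  | mul a b ha hb =>
      rw [← mul_assoc, ha, mul_assoc, hb, map_mul, mul_assoc]
  | add a b ha hb =>
      rw [mul_add, ha, hb, map_add, add_mul]

omit [CharP F 3] in
lemma iota_mul_ev (v : V) (x : ExteriorAlgebra F V) :
    ExteriorAlgebra.ι F v * ev x = ev x * ExteriorAlgebra.ι F v := by
  rw [iota_mul, hat_ev]

omit [CharP F 3] in
lemma iota_mul_od (v : V) (x : ExteriorAlgebra F V) :
    ExteriorAlgebra.ι F v * od x = -(od x * ExteriorAlgebra.ι F v) := by
  rw [iota_mul, hat_od, neg_mul]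

omit [CharP F 3] in
/-- even elements are central -/
lemma ev_comm (x y : ExteriorAlgebra F V) : ev x * y = y * ev x := by
  induction y using ExteriorAlgebra.induction with
  | algebraMap r => exact (Algebra.commutes r _).symm
  | ι w => exact (iota_mul_ev w x).symm
  | mul a b ha hb => rw [← mul_assoc, ha, mul_assoc, hb, mul_assoc]
  | add a b ha hb => rw [mul_add, ha, hb, add_mul]

omit [CharP F 3] in
lemma od_mul (x y : ExteriorAlgebra F V) : od x * y = hat y * od x := by
  induction y using ExteriorAlgebra.induction with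
  | algebraMap r => rw [AlgHom.commutes]; exact (Algebra.commutes r _).symm
  | ι w =>
      rw [hat_iota, neg_mul, iota_mul_od, neg_neg]
  | mul a b ha hb => rw [← mul_assoc, ha, mul_assoc, hb, map_mul, mul_assoc]
  | add a b ha hb => rw [mul_add, ha, hb, map_add, add_mul]

omit [CharP F 3] in
lemma od_anti (x y : ExteriorAlgebra F V) : od x * od y = -(od y * od x) := by
  rw [od_mul, hat_od, neg_mul]

lemma od_sq (x : ExteriorAlgebra F V) : od x * od x = 0 := by
  apply eq_zero_of_add_self
  nth_rewrite 1 [od_anti x x]
  simp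

lemma ev_mul (x y : ExteriorAlgebra F V) : ev (x * y) = ev x * ev y + od x * od y := by
  have h1 : x * y = (ev x + od x) * (ev y + od y) := by rw [ev_add_od, ev_add_od]
  rw [ev_apply (x * y), map_mul, hat_eq x, hat_eq y, h1]
  have h2 : -((ev x + od x) * (ev y + od y) + (ev x - od x) * (ev y - od y))
     = (ev x * ev y + od x * od y) - ((ev x * ev y + od x * od y) + (ev x * ev y + od x * od y)
        + (ev x * ev y + od x * od y)) := by noncomm_ring
  rw [h2, add3, sub_zero]

lemma od_mul' (x y : ExteriorAlgebra F V) : od (x * y) = ev x * od y + od x * ev y := by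
  have h1 : x * y = (ev x + od x) * (ev y + od y) := by rw [ev_add_od, ev_add_od]
  rw [od_apply (x * y), map_mul, hat_eq x, hat_eq y, h1]
  have h2 : (ev x - od x) * (ev y - od y) - (ev x + od x) * (ev y + od y)
     = (ev x * od y + od x * ev y) - ((ev x * od y + od x * ev y) + (ev x * od y + od x * ev y)
        + (ev x * od y + od x * ev y)) := by noncomm_ring
  rw [h2, add3, sub_zero]

omit [CharP F 3] in
lemma ev_iota (v : V) : ev (ExteriorAlgebra.ι F v) = 0 := by
  rw [ev_apply, hat_iota]; simp

lemma od_iota (v : V) : od (ExteriorAlgebra.ι F v) = ExteriorAlgebra.ι F v := by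
  have := ev_add_od (ExteriorAlgebra.ι F v)
  rw [ev_iota, zero_add] at this; exact this

/-- The cube of an even element is a scalar. -/
lemma ev_cube (x : ExteriorAlgebra F V) :
    ∃ r : F, ev x * ev x * ev x = algebraMap F (ExteriorAlgebra F V) r := by
  induction x using CliffordAlgebra.left_induction with
  | algebraMap r =>
      refine ⟨(-(r + r)) * (-(r + r)) * (-(r + r)), ?_⟩
      have h : ev (algebraMap F (ExteriorAlgebra F V) r) = algebraMap F _ (-(r + r)) := by
        rw [ev_apply, AlgHom.commutes, map_neg, map_add]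
      have h' : ev ((algebraMap F (CliffordAlgebra (0 : QuadraticForm F V))) r)
         = algebraMap F _ (-(r + r)) := h
      rw [h', map_mul, map_mul]
  | add x y hx hy =>
      obtain ⟨r, hr⟩ := hx
      obtain ⟨s, hs⟩ := hy
      refine ⟨r + s, ?_⟩
      rw [map_add, map_add, ← hr, ← hs]
      have hc : ev y * ev x = ev x * ev y := ev_comm _ _
      have h1 : (ev x + ev y) * (ev x + ev y) * (ev x + ev y)
        = ev x * ev x * ev x + ev y * ev y * ev y
          + (ev x * ev x * ev y + ev x * (ev y * ev x) + ev y * ev x * ev x)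
          + (ev x * ev y * ev y + ev y * ev x * ev y + ev y * (ev y * ev x)) := by noncomm_ring
      have h2 : ev x * (ev y * ev x) = ev x * ev x * ev y := by rw [hc, mul_assoc]
      have h3 : ev y * ev x * ev x = ev x * ev x * ev y := by
        rw [hc, mul_assoc, hc, mul_assoc]
      have h4 : ev y * ev x * ev y = ev x * ev y * ev y := by rw [hc]
      have h5 : ev y * (ev y * ev x) = ev x * ev y * ev y := by
        rw [hc, ← mul_assoc, hc]
      rw [h1, h2, h3, h4, h5, add3, add3]
      simp
  | ι_mul x m hx =>
      refine ⟨0, ?_⟩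
      have h : ev (ExteriorAlgebra.ι F m * x) = ExteriorAlgebra.ι F m * od x := by
        rw [ev_mul, ev_iota, od_iota]; simp
      have h' : ev ((CliffordAlgebra.ι (0 : QuadraticForm F V)) m * x)
        = ExteriorAlgebra.ι F m * od x := h
      rw [h', map_zero]
      have h2 : ExteriorAlgebra.ι F m * od x * (ExteriorAlgebra.ι F m * od x)
        = 0 := by
        calc ExteriorAlgebra.ι F m * od x * (ExteriorAlgebra.ι F m * od x)
            = -(od x * ExteriorAlgebra.ι F m) * (ExteriorAlgebra.ι F m * od x) := by
              rw [← iota_mul_od]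
          _ = -(od x * (ExteriorAlgebra.ι F m * ExteriorAlgebra.ι F m) * od x) := by
              noncomm_ring
          _ = 0 := by rw [ExteriorAlgebra.ι_sq_zero]; simp
      rw [h2, zero_mul]

end Pool.Agent.Lib.MP_a43909_al
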