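import Pool.Agent.Lib.MP_a43909_al.Model

/-!
# Evaluation of the identities on the model algebra
-/

namespace Pool.Agent.Lib.MP_a43909_al

/-- left-normed product -/
def lprod {A : Type*} [Mul A] (y : A) (l : List A) : A := l.foldl (· * ·) y

/-- `((y a) d) ((y b) q) ((y c) r_1 ... r_m)` -/
def phi {A : Type*} [Mul A] (y a b c d q : A) (R : List A) : A :=
  (((y * a) * d) * ((y * b) * q)) * lprod (y * c) R

/-- the four-term identity -/
def fexp {A : Type*} [Mul A] [Sub A] (y a b c d q : A) (R : List A) : A :=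
  phi y a b c d q R - phi y d b c a q R - phi y a d c b q R - phi y a b d c q R

variable {F : Type*} [Field F] [CharP F 3] {V : Type*} [AddCommGroup V] [Module F V]

lemma box_mul_even {p q s : ExteriorAlgebra F V} (hs : od s = 0) :
    box (p * s) q = box p q * s := by
  have hs' : ev s = s := by have := ev_add_od s; rwa [hs, add_zero] at this
  have hc : ∀ x, s * x = x * s := fun x => by rw [← hs']; exact ev_comm s x
  unfold box
  rw [ev_mul, od_mul', hs, hs']
  simp only [mul_zero, add_zero, add_mul, mul_assoc, hc, zero_add]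

lemma box_mul_even' {p q s : ExteriorAlgebra F V} (hs : od s = 0) :
    box p (q * s) = box p q * s := by
  rw [box_comm, box_mul_even hs, box_comm]

/-- the trilinear map -/
noncomputable def K (p q r : ExteriorAlgebra F V) : ExteriorAlgebra F V := ev (box p q * r)

lemma K_eq (p q r : ExteriorAlgebra F V) :
    K p q r = ev p * ev q * ev r + (ev p * od q + od p * ev q) * od r := by
  unfold K; rw [ev_mul, ev_box, od_box]

lemma K_even {p q r s1 s2 s3 : ExteriorAlgebra F V} (h1 : od s1 = 0) (h2 : od s2 = 0)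
    (h3 : od s3 = 0) : K (p * s1) (q * s2) (r * s3) = K p q r * (s1 * s2 * s3) := by
  have e : ∀ s : ExteriorAlgebra F V, od s = 0 → ev s = s := fun s hs => by
    have := ev_add_od s; rwa [hs, add_zero] at this
  have hc : ∀ s, od s = 0 → ∀ x : ExteriorAlgebra F V, s * x = x * s := fun s hs x => by
    rw [← e s hs]; exact ev_comm s x
  unfold K
  rw [box_mul_even h1, box_mul_even' h2]
  have : box p q * s2 * s1 * (r * s3) = box p q * r * (s1 * s2 * s3) := by
    rw [mul_assoc (box p q), hc s2 h2 s1, mul_assoc (box p q), ← mul_assoc (s1 * s2) r s3,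
      mul_assoc s1 s2 r, hc s2 h2 r, ← mul_assoc s1 r s2, hc s1 h1 r]
    simp only [mul_assoc]
  rw [this, ev_mul (box p q * r)]
  have h4 : od (s1 * s2 * s3) = 0 := by rw [od_mul', od_mul', h1, h2, h3]; simp
  rw [h4, mul_zero, add_zero, e _ h4]

omit [CharP F 3] in
lemma K_add1 (p p' q r : ExteriorAlgebra F V) : K (p + p') q r = K p q r + K p' q r := by
  unfold K; rw [add_box, add_mul, map_add]

omit [CharP F 3] in
lemma K_add2 (p q q' r : ExteriorAlgebra F V) : K p (q + q') r = K p q r + K p q' r := by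
  unfold K; rw [box_add, add_mul, map_add]

omit [CharP F 3] in
lemma K_add3 (p q r r' : ExteriorAlgebra F V) : K p q (r + r') = K p q r + K p q r' := by
  unfold K; rw [mul_add, map_add]

/-- the linear term -/
noncomputable def theta (m x : ExteriorAlgebra F V) : ExteriorAlgebra F V :=
  ev m * ev m * ev x + ev m * (od x * od m)

lemma K_mmm (m : ExteriorAlgebra F V) : K m m m = ev m * ev m * ev m := by
  rw [K_eq, ← ev_comm m (od m), add_mul, mul_assoc (ev m) (od m), od_sq, mul_zero, add_zero,
    add_zero]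

lemma K_1 (m x : ExteriorAlgebra F V) : K x m m = theta m x := by
  rw [K_eq, theta, add_mul, mul_assoc (ev x) (od m), od_sq, mul_zero, zero_add,
    ← ev_comm m (od x), mul_assoc (ev m) (od x), ev_comm x (ev m), mul_assoc (ev m) (ev x),
    ev_comm x (ev m), ← mul_assoc]

lemma K_2 (m x : ExteriorAlgebra F V) : K m x m = theta m x := by
  rw [← K_1]; unfold K; rw [box_comm]

lemma K_3 (m x : ExteriorAlgebra F V) : K m m x = theta m x := by
  rw [K_eq, theta]
  have h1 : (ev m * od m + od m * ev m) * od x = ev m * (od x * od m) := by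
    rw [← ev_comm m (od m), two_eq, neg_mul, mul_assoc, od_anti m x]
    simp
  rw [h1]

/-- the alternating product `a d b q c P` -/
noncomputable def w (q : V) (P : ExteriorAlgebra F V) (a d b c : V) : ExteriorAlgebra F V :=
  ExteriorAlgebra.ι F a * ExteriorAlgebra.ι F d * (ExteriorAlgebra.ι F b * ExteriorAlgebra.ι F q)
    * (ExteriorAlgebra.ι F c * P)

omit [CharP F 3] in
lemma iota_anti (v w : V) : ExteriorAlgebra.ι F v * ExteriorAlgebra.ι F w
      = -(ExteriorAlgebra.ι F w * ExteriorAlgebra.ι F v) := by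
    have := ExteriorAlgebra.ι_add_mul_swap (R := F) v w
    exact eq_neg_of_add_eq_zero_left this

omit [CharP F 3] in
lemma w_12 (q : V) (P : ExteriorAlgebra F V) (a d b c : V) : w q P d a b c = -w q P a d b c := by
  unfold w; rw [iota_anti d a]; noncomm_ring

omit [CharP F 3] in
lemma w_23 (q : V) (P : ExteriorAlgebra F V) (a d b c : V) : w q P a b d c = -w q P a d b c := by
  unfold w
  have h : ExteriorAlgebra.ι F a * ExteriorAlgebra.ι F b
      * (ExteriorAlgebra.ι F d * ExteriorAlgebra.ι F q)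
      = ExteriorAlgebra.ι F a * (ExteriorAlgebra.ι F b * ExteriorAlgebra.ι F d)
        * ExteriorAlgebra.ι F q := by noncomm_ring
  rw [h, iota_anti b d]; noncomm_ring

omit [CharP F 3] in
lemma w_34 (q : V) (P : ExteriorAlgebra F V) (a d b c : V) : w q P a d c b = -w q P a d b c := by
  unfold w
  have h1 : (ExteriorAlgebra.ι F c * ExteriorAlgebra.ι F q) * (ExteriorAlgebra.ι F b * P)
      = -((ExteriorAlgebra.ι F b * ExteriorAlgebra.ι F q) * (ExteriorAlgebra.ι F c * P)) := by
    calc (ExteriorAlgebra.ι F c * ExteriorAlgebra.ι F q) * (ExteriorAlgebra.ι F b * P)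
        = ExteriorAlgebra.ι F c * (ExteriorAlgebra.ι F q * ExteriorAlgebra.ι F b) * P := by
          noncomm_ring
      _ = -((ExteriorAlgebra.ι F c * ExteriorAlgebra.ι F b) * ExteriorAlgebra.ι F q * P) := by
          rw [iota_anti q b]; noncomm_ring
      _ = ExteriorAlgebra.ι F b * (ExteriorAlgebra.ι F c * ExteriorAlgebra.ι F q) * P := by
          rw [iota_anti c b]; noncomm_ring
      _ = _ := by rw [iota_anti c q]; noncomm_ring
  rw [mul_assoc, h1, mul_assoc]; noncomm_ring

omit [CharP F 3] in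
lemma w_24 (q : V) (P : ExteriorAlgebra F V) (a d b c : V) : w q P a c b d = -w q P a d b c := by
  rw [w_23 q P a b c d, w_34 q P a b d c, w_23 q P a d b c]; simp

omit [CharP F 3] in
/-- a vector occurring twice kills a product -/
lemma iota_sandwich (v : V) (x : ExteriorAlgebra F V) :
    ExteriorAlgebra.ι F v * x * ExteriorAlgebra.ι F v = 0 := by
  rw [iota_mul, mul_assoc, ExteriorAlgebra.ι_sq_zero, mul_zero]

/-- the expansion of one monomial -/
lemma T_expand (m a' b' c' P : ExteriorAlgebra F V) (u a b c d q : V) (hP : ev P = 0) :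
    K ((m * ExteriorAlgebra.ι F a + a' * ExteriorAlgebra.ι F u) * ExteriorAlgebra.ι F d)
      ((m * ExteriorAlgebra.ι F b + b' * ExteriorAlgebra.ι F u) * ExteriorAlgebra.ι F q)
      ((m * ExteriorAlgebra.ι F c + c' * ExteriorAlgebra.ι F u) * P)
    = ev m * ev m * ev m * w q P a d b c + theta m a' * w q P u d b c
      + theta m b' * w q P a d u c + theta m c' * w q P a d b u := by
  have o2 : ∀ v v' : V, od (ExteriorAlgebra.ι F v * ExteriorAlgebra.ι F v') = 0 := fun v v' => by
    rw [od_mul', ev_iota, ev_iota]; simp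
  have o3 : ∀ v : V, od (ExteriorAlgebra.ι F v * P) = 0 := fun v => by
    rw [od_mul', ev_iota, hP]; simp
  have r1 : (m * ExteriorAlgebra.ι F a + a' * ExteriorAlgebra.ι F u) * ExteriorAlgebra.ι F d
      = m * (ExteriorAlgebra.ι F a * ExteriorAlgebra.ι F d)
        + a' * (ExteriorAlgebra.ι F u * ExteriorAlgebra.ι F d) := by noncomm_ring
  have r2 : (m * ExteriorAlgebra.ι F b + b' * ExteriorAlgebra.ι F u) * ExteriorAlgebra.ι F q
      = m * (ExteriorAlgebra.ι F b * ExteriorAlgebra.ι F q)
        + b' * (ExteriorAlgebra.ι F u * ExteriorAlgebra.ι F q) := by noncomm_ring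
  have r3 : (m * ExteriorAlgebra.ι F c + c' * ExteriorAlgebra.ι F u) * P
      = m * (ExteriorAlgebra.ι F c * P)
        + c' * (ExteriorAlgebra.ι F u * P) := by noncomm_ring
  have z : ∀ x y : ExteriorAlgebra F V, ∀ X Y : ExteriorAlgebra F V,
      X * ExteriorAlgebra.ι F u * x * (ExteriorAlgebra.ι F u * Y) = 0 := fun x y X Y => by
    have : X * ExteriorAlgebra.ι F u * x * (ExteriorAlgebra.ι F u * Y)
        = X * (ExteriorAlgebra.ι F u * x * ExteriorAlgebra.ι F u) * Y := by noncomm_ring
    rw [this, iota_sandwich]; simp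
  have z1 : ExteriorAlgebra.ι F u * ExteriorAlgebra.ι F d
      * (ExteriorAlgebra.ι F u * ExteriorAlgebra.ι F q) * (ExteriorAlgebra.ι F c * P) = 0 := by
    have h := iota_sandwich (F := F) u (ExteriorAlgebra.ι F d)
    rw [← mul_assoc (ExteriorAlgebra.ι F u * ExteriorAlgebra.ι F d), h]; simp
  have z2 : ExteriorAlgebra.ι F u * ExteriorAlgebra.ι F d
      * (ExteriorAlgebra.ι F b * ExteriorAlgebra.ι F q) * (ExteriorAlgebra.ι F u * P) = 0 := by
    have h := iota_sandwich (F := F) u (ExteriorAlgebra.ι F d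
      * (ExteriorAlgebra.ι F b * ExteriorAlgebra.ι F q))
    have e : ExteriorAlgebra.ι F u * ExteriorAlgebra.ι F d
      * (ExteriorAlgebra.ι F b * ExteriorAlgebra.ι F q) * (ExteriorAlgebra.ι F u * P)
      = ExteriorAlgebra.ι F u * (ExteriorAlgebra.ι F d
      * (ExteriorAlgebra.ι F b * ExteriorAlgebra.ι F q)) * ExteriorAlgebra.ι F u * P := by
      noncomm_ring
    rw [e, h]; simp
  have z3 : ExteriorAlgebra.ι F a * ExteriorAlgebra.ι F d
      * (ExteriorAlgebra.ι F u * ExteriorAlgebra.ι F q) * (ExteriorAlgebra.ι F u * P) = 0 := by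
    have h := iota_sandwich (F := F) u (ExteriorAlgebra.ι F q)
    have e : ExteriorAlgebra.ι F a * ExteriorAlgebra.ι F d
      * (ExteriorAlgebra.ι F u * ExteriorAlgebra.ι F q) * (ExteriorAlgebra.ι F u * P)
      = ExteriorAlgebra.ι F a * ExteriorAlgebra.ι F d *
      (ExteriorAlgebra.ι F u * ExteriorAlgebra.ι F q * ExteriorAlgebra.ι F u) * P := by
      noncomm_ring
    rw [e, h]; simp
  have z4 : ExteriorAlgebra.ι F u * ExteriorAlgebra.ι F d
      * (ExteriorAlgebra.ι F u * ExteriorAlgebra.ι F q) * (ExteriorAlgebra.ι F u * P) = 0 := by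
    have h := iota_sandwich (F := F) u (ExteriorAlgebra.ι F d)
    rw [← mul_assoc (ExteriorAlgebra.ι F u * ExteriorAlgebra.ι F d), h]; simp
  rw [r1, r2, r3, K_add1, K_add2, K_add2, K_add3, K_add3, K_add3, K_add3,
    K_even (o2 _ _) (o2 _ _) (o3 _), K_even (o2 _ _) (o2 _ _) (o3 _),
    K_even (o2 _ _) (o2 _ _) (o3 _), K_even (o2 _ _) (o2 _ _) (o3 _),
    K_even (o2 _ _) (o2 _ _) (o3 _), K_even (o2 _ _) (o2 _ _) (o3 _),
    K_even (o2 _ _) (o2 _ _) (o3 _), K_even (o2 _ _) (o2 _ _) (o3 _),
    z1, z2, z3, z4, K_mmm, K_1, K_2, K_3]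
  simp only [mul_zero, add_zero]
  unfold w
  abel

/-- The four-term combination collapses in characteristic three. -/
lemma four_terms (m a' b' c' d' P : ExteriorAlgebra F V) (u a b c d q : V) (hP : ev P = 0) :
    K ((m * ExteriorAlgebra.ι F a + a' * ExteriorAlgebra.ι F u) * ExteriorAlgebra.ι F d)
      ((m * ExteriorAlgebra.ι F b + b' * ExteriorAlgebra.ι F u) * ExteriorAlgebra.ι F q)
      ((m * ExteriorAlgebra.ι F c + c' * ExteriorAlgebra.ι F u) * P)
    - K ((m * ExteriorAlgebra.ι F d + d' * ExteriorAlgebra.ι F u) * ExteriorAlgebra.ι F a)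
      ((m * ExteriorAlgebra.ι F b + b' * ExteriorAlgebra.ι F u) * ExteriorAlgebra.ι F q)
      ((m * ExteriorAlgebra.ι F c + c' * ExteriorAlgebra.ι F u) * P)
    - K ((m * ExteriorAlgebra.ι F a + a' * ExteriorAlgebra.ι F u) * ExteriorAlgebra.ι F b)
      ((m * ExteriorAlgebra.ι F d + d' * ExteriorAlgebra.ι F u) * ExteriorAlgebra.ι F q)
      ((m * ExteriorAlgebra.ι F c + c' * ExteriorAlgebra.ι F u) * P)
    - K ((m * ExteriorAlgebra.ι F a + a' * ExteriorAlgebra.ι F u) * ExteriorAlgebra.ι F c)
      ((m * ExteriorAlgebra.ι F b + b' * ExteriorAlgebra.ι F u) * ExteriorAlgebra.ι F q)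
      ((m * ExteriorAlgebra.ι F d + d' * ExteriorAlgebra.ι F u) * P)
    = ev m * ev m * ev m * w q P a d b c := by
  rw [T_expand _ _ _ _ _ _ _ _ _ _ _ hP, T_expand _ _ _ _ _ _ _ _ _ _ _ hP,
    T_expand _ _ _ _ _ _ _ _ _ _ _ hP, T_expand _ _ _ _ _ _ _ _ _ _ _ hP]
  rw [w_12 q P a d b c, w_12 q P a u b c, w_12 q P a d u c, w_12 q P a d b u,
    w_23 q P a d b c, w_23 q P u d b c, w_23 q P a u b c, w_23 q P a d b u,
    w_24 q P a d b c, w_24 q P u d b c, w_24 q P a d u c, w_24 q P a u b c]
  have t0 := add3 (ev m * ev m * ev m * w q P a d b c)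
  have ta := add3 (theta m a' * w q P u d b c)
  have tb := add3 (theta m b' * w q P a d u c)
  have tc := add3 (theta m c' * w q P a d b u)
  have td := add3 (theta m d' * w q P a u b c)
  have key : ev m * ev m * ev m * w q P a d b c
      = ev m * ev m * ev m * w q P a d b c
      + (ev m * ev m * ev m * w q P a d b c + ev m * ev m * ev m * w q P a d b c
        + ev m * ev m * ev m * w q P a d b c)
      + (theta m a' * w q P u d b c + theta m a' * w q P u d b c + theta m a' * w q P u d b c)
      + (theta m b' * w q P a d u c + theta m b' * w q P a d u c + theta m b' * w q P a d u c)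
      + (theta m c' * w q P a d b u + theta m c' * w q P a d b u + theta m c' * w q P a d b u)
      + (theta m d' * w q P a u b c + theta m d' * w q P a u b c + theta m d' * w q P a u b c)
      := by
    rw [t0, ta, tb, tc, td]; simp
  refine Eq.trans ?_ key.symm
  simp only [mul_neg]
  abel

variable {g : ExteriorAlgebra F V →ₗ[F] F}

/-- product of the first components -/
noncomputable def uprod (R : List (Model V g)) : ExteriorAlgebra F V :=
  (R.map (fun x => ExteriorAlgebra.ι F x.u)).prod

omit [CharP F 3] in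
lemma lprod_m (R : List (Model V g)) (x : Model V g) (hx : x.u = 0) :
    (lprod x R).m = x.m * uprod R ∧ (lprod x R).u = 0 := by
  induction R generalizing x with
  | nil => exact ⟨by simp [lprod, uprod], hx⟩
  | cons y R ih =>
      have h := ih (x * y) (Model.mul_u x y)
      refine ⟨?_, h.2⟩
      have h1 : (lprod x (y :: R)) = lprod (x * y) R := rfl
      rw [h1, h.1, Model.mul_m, hx]
      simp [uprod, mul_assoc]

omit [CharP F 3] in
lemma phi_val (y a b c d q : Model V g) (R : List (Model V g)) :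
    phi y a b c d q R = Model.mk 0 0 0
      (g (K ((y.m * ExteriorAlgebra.ι F a.u + a.m * ExteriorAlgebra.ι F y.u)
          * ExteriorAlgebra.ι F d.u)
        ((y.m * ExteriorAlgebra.ι F b.u + b.m * ExteriorAlgebra.ι F y.u)
          * ExteriorAlgebra.ι F q.u)
        ((y.m * ExteriorAlgebra.ι F c.u + c.m * ExteriorAlgebra.ι F y.u) * uprod R))) := by
  obtain ⟨hm, hu⟩ := lprod_m R (y * c) (Model.mul_u _ _)
  have h1 : ((y * a) * d).m = (y.m * ExteriorAlgebra.ι F a.u + a.m * ExteriorAlgebra.ι F y.u)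
          * ExteriorAlgebra.ι F d.u := by
    rw [Model.mul_m, Model.mul_u, Model.mul_m]; simp
  have h2 : ((y * b) * q).m = (y.m * ExteriorAlgebra.ι F b.u + b.m * ExteriorAlgebra.ι F y.u)
          * ExteriorAlgebra.ι F q.u := by
    rw [Model.mul_m, Model.mul_u, Model.mul_m]; simp
  have h3 : (((y * a) * d) * ((y * b) * q)).m = 0 := by
    rw [Model.mul_m, Model.mul_u, Model.mul_u]; simp
  have h4 : (((y * a) * d) * ((y * b) * q)).d = box ((y * a) * d).m ((y * b) * q).m := by
    rw [Model.mul_d, Model.mul_u, Model.mul_u]; simp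
  unfold phi
  ext
  · rfl
  · rw [Model.mul_m, hu, h3, Model.mul_u]; simp
  · rw [Model.mul_d, hu, h3, Model.mul_u]; simp
  · rw [Model.mul_t, h3, h4, h1, h2, hm, Model.mul_m]
    simp only [mul_zero, add_zero]
    rfl

lemma fexp_val (y a b c d q : Model V g) (R : List (Model V g)) (hR : ev (uprod R) = 0) :
    fexp y a b c d q R = Model.mk 0 0 0
      (g (ev y.m * ev y.m * ev y.m * w q.u (uprod R) a.u d.u b.u c.u)) := by
  unfold fexp
  rw [phi_val, phi_val, phi_val, phi_val]
  rw [← four_terms y.m a.m b.m c.m d.m (uprod R) y.u a.u b.u c.u d.u q.u hR]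
  rw [map_sub, map_sub, map_sub]
  ext <;> simp

end Pool.Agent.Lib.MP_a43909_al
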