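import Pool.Agent.Lib.MP_a43909_al.Vol
import Pool.Agent.Lib.MP_a43909_al.Compact

/-!
# The non-finitely based variety
-/

namespace Pool.Agent.Lib.MP_a43909_al

universe u

open FreeNonUnitalNonAssocAlgebra

variable (F : Type u) [Field F]

/-- the variables -/
noncomputable def X (i : ℕ) : NAPoly F := of F i

/-- commutativity, alternativity and solvability of index three -/
def base : Set (NAPoly F) :=
  {X F 0 * X F 1 - X F 1 * X F 0, (X F 0 * X F 0) * X F 1 - X F 0 * (X F 0 * X F 1),
    ((X F 0 * X F 1) * (X F 2 * X F 3)) * ((X F 4 * X F 5) * (X F 6 * X F 7))}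

/-- the identity of index `k` -/
noncomputable def Fk (k : ℕ) : NAPoly F :=
  fexp (X F 0) (X F 1) (X F 3) (X F 5) (X F 2) (X F 4)
    ((List.range (k - 5)).map (fun i => X F (i + 6)))

/-- the truncated identity systems -/
def sys (N : ℕ) : Set (NAPoly F) :=
  base F ∪ {f | ∃ k, k < N ∧ 6 ≤ k ∧ Even k ∧ f = Fk F k}

lemma sys_mono : Monotone (sys F) := by
  intro N M h f hf
  rcases hf with hf | ⟨k, h1, h2, h3, h4⟩
  · exact Or.inl hf
  · exact Or.inr ⟨k, lt_of_lt_of_le h1 h, h2, h3, h4⟩

variable {F}

section hom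

variable {A : Type*} [NonUnitalNonAssocRing A] [Module F A] [IsScalarTower F A A]
  [SMulCommClass F A A]

omit [IsScalarTower F A A] [SMulCommClass F A A] in
lemma hom_lprod (φ : NAPoly F →ₙₐ[F] A) (y : NAPoly F) (l : List (NAPoly F)) :
    φ (lprod y l) = lprod (φ y) (l.map φ) := by
  induction l generalizing y with
  | nil => rfl
  | cons a l ih =>
      have h1 : lprod y (a :: l) = lprod (y * a) l := rfl
      have h2 : lprod (φ y) ((a :: l).map φ) = lprod (φ y * φ a) (l.map φ) := rfl
      rw [h1, h2, ih, map_mul]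

omit [IsScalarTower F A A] [SMulCommClass F A A] in
lemma hom_phi (φ : NAPoly F →ₙₐ[F] A) (y a b c d q : NAPoly F) (l : List (NAPoly F)) :
    φ (phi y a b c d q l) = phi (φ y) (φ a) (φ b) (φ c) (φ d) (φ q) (l.map φ) := by
  unfold phi
  rw [map_mul, hom_lprod, map_mul, map_mul, map_mul, map_mul, map_mul, map_mul]

omit [IsScalarTower F A A] [SMulCommClass F A A] in
lemma hom_fexp (φ : NAPoly F →ₙₐ[F] A) (y a b c d q : NAPoly F) (l : List (NAPoly F)) :
    φ (fexp y a b c d q l) = fexp (φ y) (φ a) (φ b) (φ c) (φ d) (φ q) (l.map φ) := by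
  unfold fexp
  rw [map_sub, map_sub, map_sub, hom_phi, hom_phi, hom_phi, hom_phi]

lemma lift_Fk (x : ℕ → A) (k : ℕ) : lift F x (Fk F k)
    = fexp (x 0) (x 1) (x 3) (x 5) (x 2) (x 4) ((List.range (k - 5)).map (fun i => x (i + 6))) := by
  unfold Fk
  rw [hom_fexp]
  simp only [X, lift_of_apply, List.map_map]
  congr 1
  apply List.map_congr_left
  intro i _
  simp

end hom

lemma add3_module [CharP F 3] {M : Type*} [AddCommGroup M] [Module F M] (x : M) :
    x + x + x = 0 := by
  have h : (3 : F) = 0 := by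
    have := CharP.cast_eq_zero F 3
    exact_mod_cast this
  have h2 : (3 : F) • x = x + x + x := by
    have : (3 : F) = 1 + 1 + 1 := by norm_num
    rw [this, add_smul, add_smul, one_smul]
  rw [← h2, h, zero_smul]

variable [CharP F 3]

/-- the model -/
abbrev Mod (F : Type u) [Field F] (n : ℕ) := Model (Fin n → F) (vol F n)

lemma Model.alt {V : Type*} [AddCommGroup V] [Module F V] {g : ExteriorAlgebra F V →ₗ[F] F}
    (x y : Model V g) : (x * x) * y = x * (x * y) := by
  have h := Model.jacobi x x y
  have h1 : x * y * x = x * (x * y) := Model.comm _ _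
  have h2 : y * x * x = x * (x * y) := by rw [Model.comm y x, Model.comm (x * y) x]
  rw [h1, h2] at h
  have h3 := add3_module (F := F) (x * (x * y))
  have h4 : x * x * y + x * (x * y) + x * (x * y)
      = x * x * y - x * (x * y) + (x * (x * y) + x * (x * y) + x * (x * y)) := by abel
  rw [h4, h3, add_zero] at h
  exact sub_eq_zero.1 h

lemma mod_base (n : ℕ) : InVariety F (Mod F n) (base F) := by
  intro f hf x
  rcases hf with rfl | rfl | rfl
  · rw [map_sub, map_mul, map_mul, Model.comm, sub_self]
  · rw [map_sub, map_mul, map_mul, map_mul, map_mul, Model.alt, sub_self]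
  · rw [map_mul, map_mul, map_mul, map_mul, map_mul, map_mul, map_mul]
    ext
    · simp
    · simp [Model.mul_m]
    · simp [Model.mul_m, Model.mul_d]
    · simp [Model.mul_m, Model.mul_t]

lemma Fk_val (n k : ℕ) (hk : 6 ≤ k) (hk2 : Even k) (x : ℕ → Mod F n) :
    ∃ r : F, lift F x (Fk F k) = Model.mk 0 0 0 (r * vol F n
      ((((x 1).u :: (x 2).u :: (x 3).u :: (x 4).u :: (x 5).u ::
        (List.range (k - 5)).map (fun i => (x (i + 6)).u)).map
          (ExteriorAlgebra.ι F)).prod))
      ∧ ev (x 0).m * ev (x 0).m * ev (x 0).m = algebraMap F _ r := by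
  obtain ⟨r, hr⟩ := ev_cube (F := F) (x 0).m
  refine ⟨r, ?_, hr⟩
  have hodd : Odd (k - 5) := by
    obtain ⟨j, hj⟩ := hk2
    exact ⟨j - 3, by omega⟩
  have hR : ev (uprod ((List.range (k - 5)).map (fun i => x (i + 6)))) = 0 := by
    rw [uprod_eq]
    apply ev_list_prod
    simpa using hodd
  rw [lift_Fk, fexp_val _ _ _ _ _ _ _ hR, hr, w_eq, ← Algebra.smul_def, map_smul, smul_eq_mul,
    List.map_map]
  rfl

lemma mod_Fk (n k : ℕ) (hk : 6 ≤ k) (hk2 : Even k) (hkn : k ≠ n) :
    Satisfies F (Mod F n) (Fk F k) := by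
  intro x
  obtain ⟨r, h, -⟩ := Fk_val n k hk hk2 x
  rw [h, vol_prod, mul_zero]
  · rfl
  · simp only [List.length_cons, List.length_map, List.length_range]
    omega

lemma mod_not_Fk (n : ℕ) (hn : 6 ≤ n) (hn2 : Even n) : ¬ Satisfies F (Mod F n) (Fk F n) := by
  intro hsat
  let e : ℕ → (Fin n → F) := fun i => if h : i < n then Pi.single ⟨i, h⟩ 1 else 0
  let x : ℕ → Mod F n := fun i => match i with
    | 0 => Model.mk 0 1 0 0
    | i + 1 => Model.mk (e i) 0 0 0
  obtain ⟨r, h, hr⟩ := Fk_val n n hn hn2 x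
  rw [hsat x] at h
  have hx0 : ev (x 0).m = 1 := by
    change ev (1 : ExteriorAlgebra F (Fin n → F)) = 1
    rw [ev_apply, map_one, two_eq, neg_neg]
  rw [hx0, mul_one, mul_one] at hr
  have hr1 : r = 1 := by
    have h1 : algebraMap F (ExteriorAlgebra F (Fin n → F)) r
        = algebraMap F (ExteriorAlgebra F (Fin n → F)) 1 := by rw [← hr, map_one]
    exact (algebraMap F (ExteriorAlgebra F (Fin n → F))).injective h1
  have hl : ((x 1).u :: (x 2).u :: (x 3).u :: (x 4).u :: (x 5).u ::
        (List.range (n - 5)).map (fun i => (x (i + 6)).u)) = List.ofFn (fun i : Fin n => e i) := by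
    have h1 : List.ofFn (fun i : Fin n => e i) = (List.range n).map e := by
      apply List.ext_getElem <;> simp
    have h2 : List.range n = List.range 5 ++ (List.range (n - 5)).map (fun x => 5 + x) := by
      rw [← List.range_add]
      congr 1
      omega
    rw [h1, h2]
    have h3 : List.range 5 = [0, 1, 2, 3, 4] := by decide
    rw [h3, List.map_append, List.map_map]
    have h4 : (List.range (n - 5)).map (fun i => (x (i + 6)).u)
        = (List.range (n - 5)).map (e ∘ fun x => 5 + x) := by
      apply List.map_congr_left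
      intro i _
      change e (i + 5) = e (5 + i)
      rw [add_comm]
    rw [h4]
    rfl
  rw [hl, List.map_ofFn] at h
  have h2 : (List.ofFn ((ExteriorAlgebra.ι F) ∘ fun i : Fin n => e i)).prod
      = (List.ofFn (fun i : Fin n => ExteriorAlgebra.ι F (Pi.single i (1 : F)))).prod := by
    congr 2
    funext i
    simp [e]
  rw [h2, vol_basis, hr1, mul_one] at h
  have := congrArg Model.t h
  simp at this

omit [CharP F 3] in
lemma iUnion_sys : (⋃ N, sys F N)
    = base F ∪ {f | ∃ k, 6 ≤ k ∧ Even k ∧ f = Fk F k} := by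
  ext f
  simp only [Set.mem_iUnion]
  constructor
  · rintro ⟨N, hf | ⟨k, h1, h2, h3, h4⟩⟩
    · exact Or.inl hf
    · exact Or.inr ⟨k, h2, h3, h4⟩
  · rintro (hf | ⟨k, h2, h3, h4⟩)
    · exact ⟨0, Or.inl hf⟩
    · exact ⟨k + 1, Or.inr ⟨k, Nat.lt_succ_self k, h2, h3, h4⟩⟩

/-- The variety is not finitely based. -/
theorem not_finitelyBased (F : Type u) [Field F] [CharP F 3] :
    ¬ FinitelyBased F (⋃ N, sys F N) := by
  intro h
  obtain ⟨N, hN⟩ := compactness (sys F) (sys_mono F) h
  obtain ⟨n, hn1, hn2, hn3⟩ : ∃ n, N ≤ n ∧ 6 ≤ n ∧ Even n :=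
    ⟨2 * (N + 6), by omega, by omega, even_two_mul _⟩
  have h1 : InVariety F (Mod F n) (sys F N) := by
    intro f hf
    rcases hf with hf | ⟨k, h1, h2, h3, rfl⟩
    · exact mod_base n f hf
    · exact mod_Fk n k h2 h3 (by omega)
  have h2 := hN (Mod F n) h1
  apply mod_not_Fk (F := F) n hn2 hn3
  apply h2
  exact Set.mem_iUnion.2 ⟨n + 1, Or.inr ⟨n, Nat.lt_succ_self n, hn2, hn3, rfl⟩⟩

section members

variable {F : Type u} [Field F] {A : Type*} [NonUnitalNonAssocRing A] [Module F A]
  [IsScalarTower F A A] [SMulCommClass F A A]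

lemma base_comm (h : InVariety F A (base F)) (x y : A) : x * y = y * x := by
  have h1 := h _ (Or.inl rfl) (fun i => if i = 0 then x else y)
  rw [map_sub, map_mul, map_mul] at h1
  simp only [X, lift_of_apply] at h1
  exact sub_eq_zero.1 (by simpa using h1)

lemma base_alt (h : InVariety F A (base F)) (x y : A) : (x * x) * y = x * (x * y) := by
  have h1 := h _ (Or.inr (Or.inl rfl)) (fun i => if i = 0 then x else y)
  rw [map_sub, map_mul, map_mul, map_mul, map_mul] at h1
  simp only [X, lift_of_apply] at h1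
  exact sub_eq_zero.1 (by simpa using h1)

lemma base_solv (h : InVariety F A (base F)) (a b c d a' b' c' d' : A) :
    ((a * b) * (c * d)) * ((a' * b') * (c' * d')) = 0 := by
  have h1 := h _ (Or.inr (Or.inr rfl)) (fun i => match i with
    | 0 => a | 1 => b | 2 => c | 3 => d | 4 => a' | 5 => b' | 6 => c' | _ => d')
  rw [map_mul, map_mul, map_mul, map_mul, map_mul, map_mul, map_mul] at h1
  simp only [X, lift_of_apply] at h1
  exact h1

lemma base_alternative (h : InVariety F A (base F)) : AlternativeAlg A := by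
  intro x y
  refine ⟨base_alt h x y, ?_⟩
  rw [base_comm h y x, base_comm h (x * y) x, base_comm h y (x * x), base_alt h]

lemma base_jordan (h : InVariety F A (base F)) : JordanAlg A := by
  refine ⟨base_comm h, ?_⟩
  intro x y
  rw [base_comm h (x * x * y) x, base_alt h x y, base_alt h x (y * x), base_comm h y x]

lemma base_derived (h : InVariety F A (base F)) : derivedPower F A 3 = ⊥ := by
  have key1 : ∀ x ∈ derivedPower F A 2, ∀ a' b' c' d' : A, x * ((a' * b') * (c' * d')) = 0 := by
    intro x hx a' b' c' d'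
    refine Submodule.span_induction ?_ ?_ ?_ ?_ hx
    · rintro z ⟨p, hp, q, hq, rfl⟩
      have hp1 : ∀ r ∈ derivedPower F A 1, (p * r) * ((a' * b') * (c' * d')) = 0 := by
        intro r hr
        refine Submodule.span_induction ?_ ?_ ?_ ?_ hr
        · rintro r' ⟨c, -, d, -, rfl⟩
          refine Submodule.span_induction ?_ ?_ ?_ ?_ hp
          · rintro p' ⟨a, -, b, -, rfl⟩
            exact base_solv h _ _ _ _ _ _ _ _
          · simp
          · intro u v _ _ hu hv
            rw [add_mul, add_mul, hu, hv, add_zero]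
          · intro k u _ hu
            rw [smul_mul_assoc, smul_mul_assoc, hu, smul_zero]
        · simp
        · intro u v _ _ hu hv
          rw [mul_add, add_mul, hu, hv, add_zero]
        · intro k u _ hu
          rw [mul_smul_comm, smul_mul_assoc, hu, smul_zero]
      exact hp1 q hq
    · simp
    · intro u v _ _ hu hv
      rw [add_mul, hu, hv, add_zero]
    · intro k u _ hu
      rw [smul_mul_assoc, hu, smul_zero]
  have key2 : ∀ x ∈ derivedPower F A 2, ∀ y ∈ derivedPower F A 2, x * y = 0 := by
    intro x hx y hy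
    refine Submodule.span_induction ?_ ?_ ?_ ?_ hy
    · rintro z ⟨p, hp, q, hq, rfl⟩
      have hp1 : ∀ r ∈ derivedPower F A 1, x * (p * r) = 0 := by
        intro r hr
        refine Submodule.span_induction ?_ ?_ ?_ ?_ hr
        · rintro r' ⟨c, -, d, -, rfl⟩
          refine Submodule.span_induction ?_ ?_ ?_ ?_ hp
          · rintro p' ⟨a, -, b, -, rfl⟩
            exact key1 x hx _ _ _ _
          · simp
          · intro u v _ _ hu hv
            rw [add_mul, mul_add, hu, hv, add_zero]
          · intro k u _ hu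
            rw [smul_mul_assoc, mul_smul_comm, hu, smul_zero]
        · simp
        · intro u v _ _ hu hv
          rw [mul_add, mul_add, hu, hv, add_zero]
        · intro k u _ hu
          rw [mul_smul_comm, mul_smul_comm, hu, smul_zero]
      exact hp1 q hq
    · simp
    · intro u v _ _ hu hv
      rw [mul_add, hu, hv, add_zero]
    · intro k u _ hu
      rw [mul_smul_comm, hu, smul_zero]
  rw [eq_bot_iff]
  change Submodule.span F {z | ∃ x ∈ derivedPower F A 2, ∃ y ∈ derivedPower F A 2, z = x * y} ≤ ⊥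
  rw [Submodule.span_le]
  rintro z ⟨x, hx, y, hy, rfl⟩
  rw [key2 x hx y hy]
  exact Submodule.zero_mem _

end members

end Pool.Agent.Lib.MP_a43909_al
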