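import Pool.Agent.Lib.MP_a43909_al.Grassmann

/-!
# The model algebra

`Model V g = V × L × L × F` with `L` the exterior algebra of `V`, and `g : L → F` linear.
-/

namespace Pool.Agent.Lib.MP_a43909_al

variable {F : Type*} [Field F] [CharP F 3] {V : Type*} [AddCommGroup V] [Module F V]

/-- the symmetric product on the Grassmann algebra: all parts but odd times odd -/
noncomputable def box (p q : ExteriorAlgebra F V) : ExteriorAlgebra F V :=
  ev p * ev q + (ev p * od q + od p * ev q)

omit [CharP F 3] in
lemma box_comm (p q : ExteriorAlgebra F V) : box p q = box q p := by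
  unfold box
  rw [ev_comm p (ev q), ev_comm p (od q), ← ev_comm q (od p)]
  abel

omit [CharP F 3] in
lemma box_add (p q r : ExteriorAlgebra F V) : box p (q + r) = box p q + box p r := by
  unfold box; rw [map_add, map_add]; noncomm_ring

omit [CharP F 3] in
lemma add_box (p q r : ExteriorAlgebra F V) : box (p + q) r = box p r + box q r := by
  unfold box; rw [map_add, map_add]; noncomm_ring

omit [CharP F 3] in
lemma smul_box (c : F) (p q : ExteriorAlgebra F V) : box (c • p) q = c • box p q := by
  unfold box; simp [smul_add]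

omit [CharP F 3] in
lemma box_smul (c : F) (p q : ExteriorAlgebra F V) : box p (c • q) = c • box p q := by
  unfold box; simp [smul_add]

omit [CharP F 3] in
@[simp] lemma box_zero (p : ExteriorAlgebra F V) : box p 0 = 0 := by simp [box]

omit [CharP F 3] in
@[simp] lemma zero_box (p : ExteriorAlgebra F V) : box 0 p = 0 := by simp [box]

lemma ev_box (p q : ExteriorAlgebra F V) : ev (box p q) = ev p * ev q := by
  simp [box, ev_mul, ev_ev, od_ev, ev_od, od_od]

lemma od_box (p q : ExteriorAlgebra F V) : od (box p q) = ev p * od q + od p * ev q := by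
  simp [box, od_mul', ev_ev, od_ev, ev_od, od_od]

/-- Jacobi identity for two elements of the second summand and one of the first. -/
lemma jac1 (p q : ExteriorAlgebra F V) (v : V) :
    hat (box p q) * ExteriorAlgebra.ι F v + box (q * ExteriorAlgebra.ι F v) p
      + box (p * ExteriorAlgebra.ι F v) q = 0 := by
  have h1 : hat (box p q) = ev p * ev q - (ev p * od q + od p * ev q) := by
    rw [hat_eq, ev_box, od_box]
  have h2 : box (q * ExteriorAlgebra.ι F v) p
      = od q * ExteriorAlgebra.ι F v * ev p + (od q * ExteriorAlgebra.ι F v * od p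
        + ev q * ExteriorAlgebra.ι F v * ev p) := by
    simp [box, ev_mul, od_mul', ev_iota, od_iota]
  have h3 : box (p * ExteriorAlgebra.ι F v) q
      = od p * ExteriorAlgebra.ι F v * ev q + (od p * ExteriorAlgebra.ι F v * od q
        + ev p * ExteriorAlgebra.ι F v * ev q) := by
    simp [box, ev_mul, od_mul', ev_iota, od_iota]
  rw [h1, h2, h3]
  have a1 : od q * ExteriorAlgebra.ι F v * ev p = ev p * od q * ExteriorAlgebra.ι F v := by
    rw [← ev_comm, mul_assoc]
  have a2 : ev q * ExteriorAlgebra.ι F v * ev p = ev p * ev q * ExteriorAlgebra.ι F v := by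
    rw [← ev_comm, mul_assoc]
  have a3 : od p * ExteriorAlgebra.ι F v * ev q = od p * ev q * ExteriorAlgebra.ι F v := by
    rw [mul_assoc, ← ev_comm, mul_assoc]
  have a4 : ev p * ExteriorAlgebra.ι F v * ev q = ev p * ev q * ExteriorAlgebra.ι F v := by
    rw [mul_assoc, ← ev_comm, mul_assoc]
  have a5 : od q * ExteriorAlgebra.ι F v * od p = -(od q * od p * ExteriorAlgebra.ι F v) := by
    rw [mul_assoc, iota_mul_od, mul_neg, mul_assoc]
  have a6 : od p * ExteriorAlgebra.ι F v * od q = od q * od p * ExteriorAlgebra.ι F v := by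
    rw [mul_assoc, iota_mul_od, mul_neg, ← mul_assoc, od_anti p q, neg_mul, neg_neg]
  rw [a1, a2, a3, a4, a5, a6]
  have := add3 (ev p * ev q * ExteriorAlgebra.ι F v)
  rw [← this]
  noncomm_ring

/-- Jacobi identity for three elements of the second summand. -/
lemma jac2 (p q r : ExteriorAlgebra F V) :
    ev (box p q * r + box q r * p + box r p * q) = 0 := by
  rw [map_add, map_add, ev_mul, ev_mul, ev_mul, ev_box, ev_box, ev_box, od_box, od_box, od_box]
  have a1 : ev q * ev r * ev p = ev p * ev q * ev r := by
    rw [← ev_comm p, mul_assoc]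
  have a2 : ev r * ev p * ev q = ev p * ev q * ev r := by
    rw [mul_assoc, ev_comm r]
  have b1 : (ev q * od r + od q * ev r) * od p
      = -(ev q * (od p * od r)) - ev r * (od p * od q) := by
    rw [add_mul, ← ev_comm r (od q), mul_assoc, mul_assoc, od_anti r p, od_anti q p]
    noncomm_ring
  have b2 : (ev r * od p + od r * ev p) * od q
      = ev r * (od p * od q) - ev p * (od q * od r) := by
    rw [add_mul, ← ev_comm p (od r), mul_assoc, mul_assoc, od_anti r q]
    noncomm_ring
  have b3 : (ev p * od q + od p * ev q) * od r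
      = ev p * (od q * od r) + ev q * (od p * od r) := by
    rw [add_mul, ← ev_comm q (od p), mul_assoc, mul_assoc]
  rw [a1, a2, b1, b2, b3]
  have := add3 (ev p * ev q * ev r)
  rw [← this]
  noncomm_ring

/-- Jacobi identity for the third, second and first summands. -/
lemma jac3 (d r : ExteriorAlgebra F V) (v : V) :
    ev (hat d * ExteriorAlgebra.ι F v * r + d * (r * ExteriorAlgebra.ι F v)) = 0 := by
  rw [mul_assoc, iota_mul, ← mul_assoc, ← mul_assoc, ← map_mul, ← add_mul, ev_mul, od_iota,
    ev_iota]
  have h : od (hat (d * r)) = - od (d * r) := by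
    rw [od_apply, od_apply, hat_hat]; abel
  rw [map_add od, h]; simp

/-- The underlying type of the model algebra. -/
def Model (V : Type*) [AddCommGroup V] [Module F V] (_g : ExteriorAlgebra F V →ₗ[F] F) : Type _ :=
  V × ExteriorAlgebra F V × ExteriorAlgebra F V × F

variable {g : ExteriorAlgebra F V →ₗ[F] F}

noncomputable instance : AddCommGroup (Model V g) :=
  inferInstanceAs (AddCommGroup (V × ExteriorAlgebra F V × ExteriorAlgebra F V × F))

noncomputable instance : Module F (Model V g) :=
  inferInstanceAs (Module F (V × ExteriorAlgebra F V × ExteriorAlgebra F V × F))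

namespace Model

/-- constructor -/
def mk (u : V) (m d : ExteriorAlgebra F V) (t : F) : Model V g := (u, m, d, t)

/-- first component -/
def u (x : Model V g) : V := x.1
/-- second component -/
def m (x : Model V g) : ExteriorAlgebra F V := x.2.1
/-- third component -/
def d (x : Model V g) : ExteriorAlgebra F V := x.2.2.1
/-- fourth component -/
def t (x : Model V g) : F := x.2.2.2

omit [CharP F 3] in
@[ext] lemma ext {x y : Model V g} (h1 : x.u = y.u) (h2 : x.m = y.m) (h3 : x.d = y.d)
    (h4 : x.t = y.t) : x = y :=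
  Prod.ext h1 (Prod.ext h2 (Prod.ext h3 h4))

omit [CharP F 3] in
@[simp] lemma mk_u (u : V) (m d : ExteriorAlgebra F V) (t : F) :
    (mk u m d t : Model V g).u = u := rfl
omit [CharP F 3] in
@[simp] lemma mk_m (u : V) (m d : ExteriorAlgebra F V) (t : F) :
    (mk u m d t : Model V g).m = m := rfl
omit [CharP F 3] in
@[simp] lemma mk_d (u : V) (m d : ExteriorAlgebra F V) (t : F) :
    (mk u m d t : Model V g).d = d := rfl
omit [CharP F 3] in
@[simp] lemma mk_t (u : V) (m d : ExteriorAlgebra F V) (t : F) :
    (mk u m d t : Model V g).t = t := rfl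
omit [CharP F 3] in
@[simp] lemma add_u (x y : Model V g) : (x + y).u = x.u + y.u := rfl
omit [CharP F 3] in
@[simp] lemma add_m (x y : Model V g) : (x + y).m = x.m + y.m := rfl
omit [CharP F 3] in
@[simp] lemma add_d (x y : Model V g) : (x + y).d = x.d + y.d := rfl
omit [CharP F 3] in
@[simp] lemma add_t (x y : Model V g) : (x + y).t = x.t + y.t := rfl
omit [CharP F 3] in
@[simp] lemma zero_u : (0 : Model V g).u = 0 := rfl
omit [CharP F 3] in
@[simp] lemma zero_m : (0 : Model V g).m = 0 := rfl
omit [CharP F 3] in
@[simp] lemma zero_d : (0 : Model V g).d = 0 := rfl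
omit [CharP F 3] in
@[simp] lemma zero_t : (0 : Model V g).t = 0 := rfl
omit [CharP F 3] in
@[simp] lemma sub_u (x y : Model V g) : (x - y).u = x.u - y.u := rfl
omit [CharP F 3] in
@[simp] lemma sub_m (x y : Model V g) : (x - y).m = x.m - y.m := rfl
omit [CharP F 3] in
@[simp] lemma sub_d (x y : Model V g) : (x - y).d = x.d - y.d := rfl
omit [CharP F 3] in
@[simp] lemma sub_t (x y : Model V g) : (x - y).t = x.t - y.t := rfl
omit [CharP F 3] in
@[simp] lemma smul_u (c : F) (x : Model V g) : (c • x).u = c • x.u := rfl
omit [CharP F 3] in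
@[simp] lemma smul_m (c : F) (x : Model V g) : (c • x).m = c • x.m := rfl
omit [CharP F 3] in
@[simp] lemma smul_d (c : F) (x : Model V g) : (c • x).d = c • x.d := rfl
omit [CharP F 3] in
@[simp] lemma smul_t (c : F) (x : Model V g) : (c • x).t = c • x.t := rfl

noncomputable instance : Mul (Model V g) where
  mul x y := mk 0 (x.m * ExteriorAlgebra.ι F y.u + y.m * ExteriorAlgebra.ι F x.u)
    (box x.m y.m + (hat x.d * ExteriorAlgebra.ι F y.u + hat y.d * ExteriorAlgebra.ι F x.u))
    (g (ev (x.d * y.m + y.d * x.m)))

omit [CharP F 3] in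
@[simp] lemma mul_u (x y : Model V g) : (x * y).u = 0 := rfl
omit [CharP F 3] in
lemma mul_m (x y : Model V g) :
    (x * y).m = x.m * ExteriorAlgebra.ι F y.u + y.m * ExteriorAlgebra.ι F x.u := rfl
omit [CharP F 3] in
lemma mul_d (x y : Model V g) : (x * y).d =
    box x.m y.m + (hat x.d * ExteriorAlgebra.ι F y.u + hat y.d * ExteriorAlgebra.ι F x.u) := rfl
omit [CharP F 3] in
lemma mul_t (x y : Model V g) : (x * y).t = g (ev (x.d * y.m + y.d * x.m)) := rfl

noncomputable instance : NonUnitalNonAssocRing (Model V g) where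
  left_distrib x y z := by
    ext
    · simp
    · simp only [mul_m, add_m, add_u, map_add]; noncomm_ring
    · simp only [mul_d, add_m, add_u, add_d, map_add, box_add]; noncomm_ring
    · simp only [mul_t, add_m, add_d, add_t, ← map_add]; congr 2; noncomm_ring
  right_distrib x y z := by
    ext
    · simp
    · simp only [mul_m, add_m, add_u, map_add]; noncomm_ring
    · simp only [mul_d, add_m, add_u, add_d, map_add, add_box]; noncomm_ring
    · simp only [mul_t, add_m, add_d, add_t, ← map_add]; congr 2; noncomm_ring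
  zero_mul x := by
    ext <;> simp [mul_m, mul_d, mul_t]
  mul_zero x := by
    ext <;> simp [mul_m, mul_d, mul_t]

instance : IsScalarTower F (Model V g) (Model V g) where
  smul_assoc c x y := by
    change (c • x) * y = c • (x * y)
    ext
    · simp
    · simp [mul_m, smul_add]
    · simp [mul_d, smul_box, smul_add]
    · simp only [mul_t, smul_d, smul_m, smul_t, smul_mul_assoc, mul_smul_comm, ← smul_add,
        map_smul]

instance : SMulCommClass F (Model V g) (Model V g) where
  smul_comm c x y := by
    change c • (x * y) = x * (c • y)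
    ext
    · simp
    · simp [mul_m, smul_add]
    · simp [mul_d, box_smul, smul_add]
    · simp only [mul_t, smul_d, smul_m, smul_t, smul_mul_assoc, mul_smul_comm, ← smul_add,
        map_smul]

omit [CharP F 3] in
protected lemma comm (x y : Model V g) : x * y = y * x := by
  ext
  · simp
  · simp only [mul_m]; abel
  · simp only [mul_d, box_comm x.m y.m]; abel
  · simp only [mul_t]; rw [add_comm]

protected lemma jacobi (x y z : Model V g) : x * y * z + y * z * x + z * x * y = 0 := by
  have hc : ∀ v w : V, ExteriorAlgebra.ι F v * ExteriorAlgebra.ι F w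
      = -(ExteriorAlgebra.ι F w * ExteriorAlgebra.ι F v) := fun v w => by
    have := ExteriorAlgebra.ι_add_mul_swap (R := F) v w
    exact eq_neg_of_add_eq_zero_left this
  ext
  · simp
  · simp only [add_m, mul_m, mul_u, map_zero, mul_zero, add_zero, zero_m, add_mul, mul_assoc]
    rw [hc y.u x.u, hc z.u x.u, hc z.u y.u]
    noncomm_ring
  · simp only [add_d, mul_d, mul_m, mul_u, map_zero, mul_zero, add_zero, zero_d, map_add, add_box,
      add_mul, map_mul, hat_hat, hat_iota]
    have j1 := jac1 x.m y.m z.u
    have j2 := jac1 y.m z.m x.u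
    have j3 := jac1 z.m x.m y.u
    have e1 := congrArg₂ (· + ·) (congrArg₂ (· + ·) j1 j2) j3
    simp only [add_zero] at e1
    rw [← e1]
    simp only [mul_neg, neg_mul, mul_assoc]
    rw [hc y.u x.u, hc z.u x.u, hc z.u y.u]
    noncomm_ring
  · have j0 := jac2 x.m y.m z.m
    have j1 := jac3 x.d y.m z.u
    have j2 := jac3 x.d z.m y.u
    have j3 := jac3 y.d x.m z.u
    have j4 := jac3 y.d z.m x.u
    have j5 := jac3 z.d x.m y.u
    have j6 := jac3 z.d y.m x.u
    simp only [add_t, mul_t, mul_d, mul_m, zero_t]
    rw [← map_add, ← map_add, ← map_add, ← map_add]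
    have : (ev ((box x.m y.m + (hat x.d * ExteriorAlgebra.ι F y.u
        + hat y.d * ExteriorAlgebra.ι F x.u)) * z.m
        + z.d * (x.m * ExteriorAlgebra.ι F y.u + y.m * ExteriorAlgebra.ι F x.u)
        + ((box y.m z.m + (hat y.d * ExteriorAlgebra.ι F z.u
        + hat z.d * ExteriorAlgebra.ι F y.u)) * x.m
        + x.d * (y.m * ExteriorAlgebra.ι F z.u + z.m * ExteriorAlgebra.ι F y.u))
        + ((box z.m x.m + (hat z.d * ExteriorAlgebra.ι F x.u
        + hat x.d * ExteriorAlgebra.ι F z.u)) * y.m
        + y.d * (z.m * ExteriorAlgebra.ι F x.u + x.m * ExteriorAlgebra.ι F z.u)))) = 0 := by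
      have e1 : ev (box x.m y.m * z.m + box y.m z.m * x.m + box z.m x.m * y.m)
        + ev (hat x.d * ExteriorAlgebra.ι F z.u * y.m + x.d * (y.m * ExteriorAlgebra.ι F z.u))
        + ev (hat x.d * ExteriorAlgebra.ι F y.u * z.m + x.d * (z.m * ExteriorAlgebra.ι F y.u))
        + ev (hat y.d * ExteriorAlgebra.ι F z.u * x.m + y.d * (x.m * ExteriorAlgebra.ι F z.u))
        + ev (hat y.d * ExteriorAlgebra.ι F x.u * z.m + y.d * (z.m * ExteriorAlgebra.ι F x.u))
        + ev (hat z.d * ExteriorAlgebra.ι F y.u * x.m + z.d * (x.m * ExteriorAlgebra.ι F y.u))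
        + ev (hat z.d * ExteriorAlgebra.ι F x.u * y.m + z.d * (y.m * ExteriorAlgebra.ι F x.u))
        = 0 := by
        rw [j0, j1, j2, j3, j4, j5, j6]; simp
      rw [← e1, ← map_add, ← map_add, ← map_add, ← map_add, ← map_add, ← map_add]
      congr 1
      noncomm_ring
    rw [this, map_zero]

end Model

end Pool.Agent.Lib.MP_a43909_al
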