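import Pool.Agent.Lib.MP_a43909_al.Ident

/-!
# The volume functional
-/

namespace Pool.Agent.Lib.MP_a43909_al

variable {F : Type*} [Field F]

/-- the volume functional on the exterior algebra of `F^n` -/
noncomputable def vol (F : Type*) [Field F] (n : ℕ) :
    ExteriorAlgebra F (Fin n → F) →ₗ[F] F :=
  ExteriorAlgebra.liftAlternating
    (Pi.single n (Matrix.detRowAlternating : (Fin n → F) [⋀^Fin n]→ₗ[F] F))

lemma list_prod_eq {V : Type*} [AddCommGroup V] [Module F V] (l : List V) :
    (l.map (ExteriorAlgebra.ι F)).prod = ExteriorAlgebra.ιMulti F l.length (fun i => l.get i) := by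
  rw [ExteriorAlgebra.ιMulti_apply]
  congr 1
  have : l.map (ExteriorAlgebra.ι F) = (List.ofFn (fun i => l.get i)).map (ExteriorAlgebra.ι F) := by
    rw [List.ofFn_get]
  rw [this, List.map_ofFn]
  rfl

lemma vol_prod (n : ℕ) (l : List (Fin n → F)) (h : l.length ≠ n) :
    vol F n ((l.map (ExteriorAlgebra.ι F)).prod) = 0 := by
  rw [list_prod_eq, vol, ExteriorAlgebra.liftAlternating_apply_ιMulti, Pi.single_eq_of_ne h]
  rfl

lemma vol_basis (n : ℕ) :
    vol F n ((List.ofFn (fun i : Fin n => ExteriorAlgebra.ι F (Pi.single i (1 : F)))).prod) = 1 := by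
  have h := ExteriorAlgebra.ιMulti_apply (R := F) (n := n) (fun i : Fin n => Pi.single i (1 : F))
  rw [← h, vol, ExteriorAlgebra.liftAlternating_apply_ιMulti, Pi.single_eq_same]
  have h2 : (fun i : Fin n => Pi.single i (1 : F)) = (1 : Matrix (Fin n) (Fin n) F) := by
    ext i j
    rw [Matrix.one_apply, Pi.single_apply]
    simp [eq_comm]
  rw [h2]
  exact Matrix.det_one

lemma hat_list_prod {V : Type*} [AddCommGroup V] [Module F V] (l : List V) :
    hat ((l.map (ExteriorAlgebra.ι F)).prod) = (-1) ^ l.length * (l.map (ExteriorAlgebra.ι F)).prod := by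
  induction l with
  | nil => simp
  | cons a l ih =>
      rw [List.map_cons, List.prod_cons, map_mul, hat_iota, ih, List.length_cons, pow_succ]
      have h : (ExteriorAlgebra.ι F) a * (-1) ^ l.length = (-1) ^ l.length * (ExteriorAlgebra.ι F) a :=
        (Commute.neg_one_right _ |>.pow_right _).eq
      rw [neg_mul, ← mul_assoc, h]
      noncomm_ring

lemma ev_list_prod {V : Type*} [AddCommGroup V] [Module F V] (l : List V) (h : Odd l.length) :
    ev ((l.map (ExteriorAlgebra.ι F)).prod) = 0 := by
  rw [ev_apply, hat_list_prod, h.neg_one_pow]; simp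

variable {V : Type*} [AddCommGroup V] [Module F V] {g : ExteriorAlgebra F V →ₗ[F] F}

lemma uprod_eq (R : List (Model V g)) :
    uprod R = ((R.map Model.u).map (ExteriorAlgebra.ι F)).prod := by
  unfold uprod; rw [List.map_map]; rfl

lemma w_eq (q a d b c : V) (R : List (Model V g)) :
    w q (uprod R) a d b c
      = (((a :: d :: b :: q :: c :: R.map Model.u)).map (ExteriorAlgebra.ι F)).prod := by
  rw [uprod_eq]
  unfold w
  simp [mul_assoc]

end Pool.Agent.Lib.MP_a43909_al
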